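import Pool.Agent.H33.SMS.Targets

/-!
# Few numbers with two-adic valuation two are bad (row CTW)
-/

set_option autoImplicit false

namespace Pool.Agent.H70.SMS

open Pool.Agent.H33.SMS

/-- Numbers `n ≤ N` above `a` with `n - a` divisible by `m`: at most `N / m`. -/
theorem card_shift (N a m : ℕ) :
    ((Finset.Icc 1 N).filter (fun n => a < n ∧ m ∣ n - a)).card ≤ N / m := by
  have h1 : ((Finset.Icc 1 N).filter (fun n => a < n ∧ m ∣ n - a)).card ≤
      ((Finset.Ioc 0 N).filter (fun k => m ∣ k)).card := by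
    apply Finset.card_le_card_of_injOn (fun n => n - a)
    · intro n hn
      simp only [Finset.coe_filter, Finset.mem_Icc, Set.mem_setOf_eq, Finset.mem_Ioc] at hn ⊢
      obtain ⟨⟨h1, h2⟩, h3, h4⟩ := hn
      exact ⟨⟨by omega, by omega⟩, h4⟩
    · intro n hn k hk hnk
      simp only [Finset.coe_filter, Finset.mem_Icc, Set.mem_setOf_eq] at hn hk
      simp only at hnk
      omega
  rw [Nat.Ioc_filter_dvd_card_eq_div] at h1
  exact h1

/-- The tail of the geometric series. -/
theorem geom_tail (J : ℕ) :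
    (∑ j ∈ Finset.Ico 6 (6 + J), (1 : ℝ) / 2 ^ (j + 2)) = 1 / 128 - 1 / 2 ^ (J + 7) := by
  induction J with
  | zero => norm_num
  | succ k ih =>
    rw [← Nat.add_assoc, Finset.sum_Ico_succ_top (by omega), ih]
    have h1 : (2 : ℝ) ^ (6 + k + 2) = 2 * 2 ^ (k + 7) := by ring
    have h2 : (2 : ℝ) ^ (k + 1 + 7) = 2 * 2 ^ (k + 7) := by ring
    rw [h1, h2]
    field_simp
    ring

theorem pf_CTW (h : T_BTW) : T_CTW := by
  classical
  intro N
  set S := (Finset.Icc 1 N).filter (fun n => padicValNat 2 n = 2 ∧ Bad 2 n) with hS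
  have hsub : S ⊆ ((Finset.Icc 1 N).filter (fun n => 4 < n ∧ 32 ∣ n - 4)) ∪
      (Finset.Ico 6 (6 + N)).biUnion (fun j =>
        (Finset.Icc 1 N).filter (fun n => 2 * j < n ∧ 2 ^ (j + 2) ∣ n - 2 * j)) := by
    intro n hn
    rw [hS, Finset.mem_filter] at hn
    obtain ⟨hnI, hv, hb⟩ := hn
    rw [Finset.mem_union, Finset.mem_filter, Finset.mem_biUnion]
    rcases h n hv hb with h1 | ⟨j, hj6, hjn, hjd⟩
    · exact Or.inl ⟨hnI, h1⟩
    · right
      refine ⟨j, ?_, ?_⟩
      · rw [Finset.mem_Ico]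
        rw [Finset.mem_Icc] at hnI
        omega
      · rw [Finset.mem_filter]
        exact ⟨hnI, hjn, hjd⟩
  have hcard : (S.card : ℝ) ≤ N / 32 + ∑ j ∈ Finset.Ico 6 (6 + N), (N : ℝ) * (1 / 2 ^ (j + 2)) := by
    have h1 : S.card ≤ N / 32 + ∑ j ∈ Finset.Ico 6 (6 + N), N / 2 ^ (j + 2) := by
      refine (Finset.card_le_card hsub).trans ((Finset.card_union_le _ _).trans ?_)
      apply Nat.add_le_add (card_shift N 4 32)
      refine Finset.card_biUnion_le.trans ?_
      apply Finset.sum_le_sum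
      intro j _
      exact card_shift N (2 * j) (2 ^ (j + 2))
    have h2 : (S.card : ℝ) ≤ ((N / 32 + ∑ j ∈ Finset.Ico 6 (6 + N), N / 2 ^ (j + 2) : ℕ) : ℝ) := by
      exact_mod_cast h1
    refine h2.trans ?_
    rw [Nat.cast_add, Nat.cast_sum]
    apply add_le_add
    · have h3 := @Nat.cast_div_le ℝ _ _ _ N 32
      simpa using h3
    · apply Finset.sum_le_sum
      intro j _
      have h3 := @Nat.cast_div_le ℝ _ _ _ N (2 ^ (j + 2))
      rw [Nat.cast_pow, Nat.cast_ofNat] at h3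
      rw [mul_one_div]
      exact h3
  rw [← Finset.mul_sum, geom_tail] at hcard
  have hN : (0 : ℝ) ≤ N := Nat.cast_nonneg N
  have hp : (0 : ℝ) ≤ N * (1 / 2 ^ (N + 7)) := by positivity
  have : (S.card : ℝ) ≤ N * (5 / 128) := by linarith
  exact this

end Pool.Agent.H70.SMS
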