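import Pool.Agent.H33.SMS.Targets

/-!
# Few exceptional `s` (row MUL)
-/

set_option autoImplicit false

namespace Pool.Agent.H70.SMS

open Pool.Agent.H33.SMS

theorem pf_MUL (hC : T_CRD) (hG : T_GOO) : T_MUL := by
  classical
  intro P A n hn hbig hsmall
  have hn0 : n ≠ 0 := by omega
  set L := n.primeFactors.filter (fun p => P < p) with hL
  set S := n.primeFactors.filter (fun p => ¬ P < p) with hS
  set Q := ∏ p ∈ L, p with hQ
  set m := ∏ p ∈ S, p ^ n.factorization p with hm
  have hLp : ∀ p ∈ L, p.Prime ∧ p ∣ n ∧ P < p := by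
    intro p hp
    rw [hL, Finset.mem_filter, Nat.mem_primeFactors] at hp
    exact ⟨hp.1.1, hp.1.2.1, hp.2⟩
  have hSp : ∀ p ∈ S, p.Prime ∧ p ∣ n ∧ p ≤ P := by
    intro p hp
    rw [hS, Finset.mem_filter, Nat.mem_primeFactors] at hp
    exact ⟨hp.1.1, hp.1.2.1, not_lt.1 hp.2⟩
  have hnm : n = Q * m := by
    have h1 : n.factorization.prod (fun p k => p ^ k) = n := Nat.factorization_prod_pow_eq_self hn0
    rw [Finsupp.prod, Nat.support_factorization,
      ← Finset.prod_filter_mul_prod_filter_not n.primeFactors (fun p => P < p)] at h1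
    have h5 : ∏ p ∈ L, p ^ n.factorization p = Q := by
      rw [hQ]
      apply Finset.prod_congr rfl
      intro p hp
      obtain ⟨hpp, hpn, hpP⟩ := hLp p hp
      have h2 : n.factorization p = 1 := by
        have h3 : 1 ≤ n.factorization p := (hpp.dvd_iff_one_le_factorization hn0).1 hpn
        have h4 : ¬ 2 ≤ n.factorization p := fun h =>
          (hbig p hpp hpP hpn).1 ((hpp.pow_dvd_iff_le_factorization hn0).2 h)
        omega
      rw [h2, pow_one]
    rw [← h5]
    exact h1.symm
  have hm0 : 0 < m := Finset.prod_pos fun p hp => pow_pos (hSp p hp).1.pos _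
  have hQ0 : 0 < Q := Finset.prod_pos fun p hp => (hLp p hp).1.pos
  have hmP : m ≤ P ^ (A * P) := by
    rcases Nat.eq_zero_or_pos P with h0 | h0
    · have hSe : S = ∅ := by
        rw [Finset.eq_empty_iff_forall_notMem]
        intro p hp
        obtain ⟨hpp, -, hpP⟩ := hSp p hp
        have := hpp.pos
        omega
      rw [hm, hSe, Finset.prod_empty, h0, mul_zero, pow_zero]
    · have hcard : S.card ≤ P := by
        have h1 : S ⊆ Finset.Icc 1 P := by
          intro p hp
          obtain ⟨hpp, -, hpP⟩ := hSp p hp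
          exact Finset.mem_Icc.2 ⟨hpp.pos, hpP⟩
        have h2 := Finset.card_le_card h1
        rwa [Nat.card_Icc, Nat.add_sub_cancel] at h2
      calc m ≤ ∏ _p ∈ S, P ^ A := by
            apply Finset.prod_le_prod'
            intro p hp
            obtain ⟨hpp, -, hpP⟩ := hSp p hp
            have h1 : n.factorization p ≤ A := by
              by_contra h
              push Not at h
              exact hsmall p hpp hpP ((hpp.pow_dvd_iff_le_factorization hn0).2 h.le)
            calc p ^ n.factorization p ≤ p ^ A := Nat.pow_le_pow_right hpp.pos h1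
              _ ≤ P ^ A := Nat.pow_le_pow_left hpP A
        _ = P ^ (A * S.card) := by rw [Finset.prod_const, ← pow_mul]
        _ ≤ P ^ (A * P) := Nat.pow_le_pow_right h0 (Nat.mul_le_mul_left A hcard)
  have hdvd : ∀ s ∈ (Finset.Ico 1 n).filter (fun s => ¬ Det n s), Q ∣ s := by
    intro s hs
    rw [Finset.mem_filter, Finset.mem_Ico] at hs
    rw [hQ]
    apply Finset.prod_primes_dvd
    · intro p hp
      exact (hLp p hp).1.prime
    · intro p hp
      obtain ⟨hpp, hpn, hpP⟩ := hLp p hp
      by_contra hps
      exact hs.2 (hC p n s (hG p n s hpp hpn (hbig p hpp hpP hpn).2 hps hs.1.2) hs.1.2)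
  refine le_trans ?_ hmP
  calc ((Finset.Ico 1 n).filter (fun s => ¬ Det n s)).card ≤ (Finset.range m).card := by
        apply Finset.card_le_card_of_injOn (fun s => s / Q)
        · intro s hs
          have hs' := hs
          rw [Finset.mem_coe, Finset.mem_filter, Finset.mem_Ico] at hs'
          rw [Finset.mem_coe, Finset.mem_range, Nat.div_lt_iff_lt_mul hQ0, mul_comm, ← hnm]
          exact hs'.1.2
        · intro s hs t ht hst
          have h1 := hdvd s (Finset.mem_coe.1 hs)
          have h2 := hdvd t (Finset.mem_coe.1 ht)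
          have h3 : s / Q = t / Q := hst
          rw [← Nat.div_mul_cancel h1, ← Nat.div_mul_cancel h2, h3]
    _ = m := Finset.card_range m

end Pool.Agent.H70.SMS
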